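import Pool.Agent.Lib.MP_a78e1f_lc.T.Iface
import Pool.Agent.Lib.MP_6d445e_gt.H59.Ndmx

/-!
# FAM: Miller, Laver and Sacks trees are families of trees
-/

set_option autoImplicit false

namespace Pool.Agent.Lib.MP_a78e1f_lc.H46

open Pool.Agent.Lib.MP_6d445e_gt
open Pool.Agent.Lib.MP_6d445e_gt.H59
open Pool.Agent.Lib.MP_a78e1f_lc

/-! ## Measurable sets -/

section

variable {Ω : Type*} [MeasurableSpace Ω]

theorem m_all {ι : Sort*} [Countable ι] {p : ι → Ω → Prop}
    (h : ∀ i, MeasurableSet {ω | p i ω}) : MeasurableSet {ω | ∀ i, p i ω} := by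
  have : {ω | ∀ i, p i ω} = ⋂ i, {ω | p i ω} := by
    ext ω
    simp only [Set.mem_ofPred_eq, Set.mem_iInter]
  rw [this]
  exact MeasurableSet.iInter h

theorem m_ex {ι : Sort*} [Countable ι] {p : ι → Ω → Prop}
    (h : ∀ i, MeasurableSet {ω | p i ω}) : MeasurableSet {ω | ∃ i, p i ω} := by
  have : {ω | ∃ i, p i ω} = ⋃ i, {ω | p i ω} := by
    ext ω
    simp only [Set.mem_ofPred_eq, Set.mem_iUnion]
  rw [this]
  exact MeasurableSet.iUnion h

theorem m_imp {p q : Ω → Prop} (hp : MeasurableSet {ω | p ω}) (hq : MeasurableSet {ω | q ω}) :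
    MeasurableSet {ω | p ω → q ω} := by
  have : {ω | p ω → q ω} = {ω | p ω}ᶜ ∪ {ω | q ω} := by
    ext ω
    simp only [Set.mem_ofPred_eq, Set.mem_union, Set.mem_compl_iff]
    exact imp_iff_not_or
  rw [this]
  exact hp.compl.union hq

theorem m_and {p q : Ω → Prop} (hp : MeasurableSet {ω | p ω}) (hq : MeasurableSet {ω | q ω}) :
    MeasurableSet {ω | p ω ∧ q ω} := hp.inter hq

theorem m_const (p : Prop) : MeasurableSet {_ω : Ω | p} := MeasurableSet.const p

theorem m_pt (t : List ℕ) : MeasurableSet {x : List ℕ → Bool | x t = true} :=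
  (measurable_pi_apply t : Measurable fun x : List ℕ → Bool => x t)
    (measurableSet_singleton true)

end

/-! ## Lists -/

theorem next {t t' : List ℕ} (h : t <+: t') : t = t' ∨ ∃ k, t ++ [k] <+: t' := by
  obtain ⟨l, rfl⟩ := h
  cases l with
  | nil => exact Or.inl (by simp)
  | cons x l => exact Or.inr ⟨x, l, by simp⟩

/-! ## Miller trees -/

theorem fam_mil : TFam IsMil where
  ne := ⟨_, isMil_inc⟩
  nil _ h := h.nil
  pre _ h := h.pre
  ext _ h _ ht := IsMil.child h ht
  res _ h _ ht := IsMil.restrict h ht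
  meas := by
    have h : {x : List ℕ → Bool | IsMil {t | x t = true}} =
        {x | x [] = true ∧ (∀ t t' : List ℕ, t <+: t' → x t' = true → x t = true) ∧
          (∀ t : List ℕ, x t = true → Inc t) ∧
          ∀ t : List ℕ, x t = true → ∃ t', t <+: t' ∧ ∀ m : ℕ, ∃ k, m ≤ k ∧
            x (t' ++ [k]) = true} := by
      ext x
      constructor
      · intro h
        exact ⟨h.nil, h.pre, h.inc, h.spl⟩
      · rintro ⟨h1, h2, h3, h4⟩
        exact ⟨h1, h2, h3, h4⟩
    rw [h]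
    refine m_and (m_pt _) (m_and ?_ (m_and ?_ ?_))
    · exact m_all fun t => m_all fun t' => m_imp (m_const _) (m_imp (m_pt _) (m_pt _))
    · exact m_all fun t => m_imp (m_pt _) (m_const _)
    · exact m_all fun t => m_imp (m_pt _) (m_ex fun t' => m_and (m_const _)
        (m_all fun m => m_ex fun k => m_and (m_const _) (m_pt _)))

/-! ## Laver trees -/

theorem le_fold (t : List ℕ) (i : ℕ) (hi : i ∈ t) : i ≤ t.foldr max 0 := by
  induction t with
  | nil => simp at hi
  | cons a t ih =>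
    simp only [List.foldr_cons]
    rcases List.mem_cons.1 hi with rfl | hi
    · exact le_max_left _ _
    · exact (ih hi).trans (le_max_right _ _)

theorem isLav_inc : IsLav {t : List ℕ | Inc t} where
  pre _ _ h h' := inc_prefix h h'
  inc _ h := h
  stem := by
    refine ⟨[], inc_nil, fun t _ => Or.inr List.nil_prefix, fun t ht _ m => ?_⟩
    refine ⟨max m (t.foldr max 0 + 1), le_max_left _ _, inc_append ht fun i hi => ?_⟩
    exact lt_of_lt_of_le (Nat.lt_succ_of_le (le_fold t i hi)) (le_max_right _ _)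

theorem lav_ext {T : Set (List ℕ)} (h : IsLav T) {t : List ℕ} (ht : t ∈ T) :
    ∃ k, t ++ [k] ∈ T := by
  obtain ⟨s, hs, hc, hd⟩ := h.stem
  rcases hc t ht with h1 | h1
  · rcases next h1 with rfl | ⟨k, hk⟩
    · obtain ⟨k, -, hk⟩ := hd t ht List.prefix_rfl 0
      exact ⟨k, hk⟩
    · exact ⟨k, h.pre _ _ hk hs⟩
  · obtain ⟨k, -, hk⟩ := hd t ht h1 0
    exact ⟨k, hk⟩

theorem lav_res {T : Set (List ℕ)} (h : IsLav T) {t : List ℕ} (ht : t ∈ T) :
    IsLav {t' | t' ∈ T ∧ Cmp t' t} where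
  pre s s' hs hs' := ⟨h.pre _ _ hs hs'.1, cmp_of_prefix hs hs'.2⟩
  inc s hs := h.inc s hs.1
  stem := by
    obtain ⟨s, hs, hc, hd⟩ := h.stem
    rcases hc t ht with h1 | h1
    · refine ⟨s, ⟨hs, Or.inr h1⟩, fun t' ht' => hc t' ht'.1, fun t' ht' h2 m => ?_⟩
      obtain ⟨k, hk, hk'⟩ := hd t' ht'.1 h2 m
      exact ⟨k, hk, hk', Or.inr ((h1.trans h2).trans (List.prefix_append _ _))⟩
    · refine ⟨t, ⟨ht, Or.inl List.prefix_rfl⟩, fun t' ht' => ht'.2, fun t' ht' h2 m => ?_⟩
      obtain ⟨k, hk, hk'⟩ := hd t' ht'.1 (h1.trans h2) m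
      exact ⟨k, hk, hk', Or.inr (h2.trans (List.prefix_append _ _))⟩

theorem fam_lav : TFam IsLav where
  ne := ⟨_, isLav_inc⟩
  nil _ h := by
    obtain ⟨s, hs, -⟩ := h.stem
    exact h.pre _ _ List.nil_prefix hs
  pre _ h := h.pre
  ext _ h _ ht := lav_ext h ht
  res _ h _ ht := lav_res h ht
  meas := by
    have h : {x : List ℕ → Bool | IsLav {t | x t = true}} =
        {x | (∀ t t' : List ℕ, t <+: t' → x t' = true → x t = true) ∧
          (∀ t : List ℕ, x t = true → Inc t) ∧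
          ∃ s : List ℕ, x s = true ∧ (∀ t : List ℕ, x t = true → Cmp t s) ∧
            ∀ t : List ℕ, x t = true → s <+: t → ∀ m : ℕ, ∃ k, m ≤ k ∧
            x (t ++ [k]) = true} := by
      ext x
      constructor
      · intro h
        exact ⟨h.pre, h.inc, h.stem⟩
      · rintro ⟨h2, h3, h4⟩
        exact ⟨h2, h3, h4⟩
    rw [h]
    refine m_and ?_ (m_and ?_ ?_)
    · exact m_all fun t => m_all fun t' => m_imp (m_const _) (m_imp (m_pt _) (m_pt _))
    · exact m_all fun t => m_imp (m_pt _) (m_const _)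
    · refine m_ex fun s => m_and (m_pt _) (m_and ?_ ?_)
      · exact m_all fun t => m_imp (m_pt _) (m_const _)
      · exact m_all fun t => m_imp (m_pt _) (m_imp (m_const _)
          (m_all fun m => m_ex fun k => m_and (m_const _) (m_pt _)))

/-! ## Sacks trees -/

theorem isSac_bin : IsSac {t : List ℕ | ∀ i ∈ t, i = 0 ∨ i = 1} where
  nil := by simp
  pre _ _ h h' := fun i hi => h' i (h.subset hi)
  bin _ h := h
  spl t ht := by
    refine ⟨t, List.prefix_rfl, ?_, ?_⟩
    · intro i hi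
      rcases List.mem_append.1 hi with hi | hi
      · exact ht i hi
      · exact Or.inl (List.mem_singleton.1 hi)
    · intro i hi
      rcases List.mem_append.1 hi with hi | hi
      · exact ht i hi
      · exact Or.inr (List.mem_singleton.1 hi)

theorem sac_ext {T : Set (List ℕ)} (h : IsSac T) {t : List ℕ} (ht : t ∈ T) :
    ∃ k, t ++ [k] ∈ T := by
  obtain ⟨t', h1, h2, -⟩ := h.spl t ht
  rcases next h1 with rfl | ⟨k, hk⟩
  · exact ⟨0, h2⟩
  · exact ⟨k, h.pre _ _ (hk.trans (List.prefix_append _ _)) h2⟩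

theorem sac_res {T : Set (List ℕ)} (h : IsSac T) {t : List ℕ} (ht : t ∈ T) :
    IsSac {t' | t' ∈ T ∧ Cmp t' t} where
  nil := ⟨h.nil, Or.inl List.nil_prefix⟩
  pre s s' hs hs' := ⟨h.pre _ _ hs hs'.1, cmp_of_prefix hs hs'.2⟩
  bin s hs := h.bin s hs.1
  spl s hs := by
    rcases hs.2 with h1 | h1
    · obtain ⟨t', h2, h3, h4⟩ := h.spl t ht
      exact ⟨t', h1.trans h2, ⟨h3, Or.inr (h2.trans (List.prefix_append _ _))⟩,
        ⟨h4, Or.inr (h2.trans (List.prefix_append _ _))⟩⟩
    · obtain ⟨t', h2, h3, h4⟩ := h.spl s hs.1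
      exact ⟨t', h2, ⟨h3, Or.inr ((h1.trans h2).trans (List.prefix_append _ _))⟩,
        ⟨h4, Or.inr ((h1.trans h2).trans (List.prefix_append _ _))⟩⟩

theorem fam_sac : TFam IsSac where
  ne := ⟨_, isSac_bin⟩
  nil _ h := h.nil
  pre _ h := h.pre
  ext _ h _ ht := sac_ext h ht
  res _ h _ ht := sac_res h ht
  meas := by
    have h : {x : List ℕ → Bool | IsSac {t | x t = true}} =
        {x | x [] = true ∧ (∀ t t' : List ℕ, t <+: t' → x t' = true → x t = true) ∧
          (∀ t : List ℕ, x t = true → ∀ i ∈ t, i = 0 ∨ i = 1) ∧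
          ∀ t : List ℕ, x t = true → ∃ t', t <+: t' ∧ x (t' ++ [0]) = true ∧
            x (t' ++ [1]) = true} := by
      ext x
      constructor
      · intro h
        exact ⟨h.nil, h.pre, h.bin, h.spl⟩
      · rintro ⟨h1, h2, h3, h4⟩
        exact ⟨h1, h2, h3, h4⟩
    rw [h]
    refine m_and (m_pt _) (m_and ?_ (m_and ?_ ?_))
    · exact m_all fun t => m_all fun t' => m_imp (m_const _) (m_imp (m_pt _) (m_pt _))
    · exact m_all fun t => m_imp (m_pt _) (m_const _)
    · exact m_all fun t => m_imp (m_pt _) (m_ex fun t' => m_and (m_const _)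
        (m_and (m_pt _) (m_pt _)))

/-- FAM. -/
theorem fam : FamStatement := ⟨fam_mil, fam_lav, fam_sac⟩

end Pool.Agent.Lib.MP_a78e1f_lc.H46
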